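import Mathlib

/-!
Positive part of the quantum affine algebra of type A_1^(1): basic structure.
-/

namespace Pool.Agent.R28.CenterUq

open scoped TensorProduct

universe u

section Basic

variable {K : Type u} [Field K]

/-- The quantum integer `[3] = q^2 + 1 + q^(-2)`. -/
def qthree (q : K) : K := q ^ 2 + 1 + (q ^ 2)⁻¹

/-- The q-Serre expression `x^3 y - c x^2 y x + c x y x^2 - y x^3`. -/
def serre {R : Type*} [Ring R] [Algebra K R] (c : K) (x y : R) : R :=
  x ^ 3 * y - c • (x ^ 2 * y * x) + c • (x * y * x ^ 2) - y * x ^ 3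

/-- The two q-Serre relations on the free algebra on the generators `0 = A`, `1 = A*`. -/
inductive Rel (q : K) : FreeAlgebra K (Fin 2) → FreeAlgebra K (Fin 2) → Prop
  | one : Rel q (serre (qthree q) (FreeAlgebra.ι K 0) (FreeAlgebra.ι K 1)) 0
  | two : Rel q (serre (qthree q) (FreeAlgebra.ι K 1) (FreeAlgebra.ι K 0)) 0

/-- The algebra `U^+`. -/
def Uq (q : K) : Type u := RingQuot (Rel q)

instance (q : K) : Ring (Uq q) := inferInstanceAs (Ring (RingQuot (Rel q)))
instance (q : K) : Algebra K (Uq q) := inferInstanceAs (Algebra K (RingQuot (Rel q)))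

/-- The class of an element of the free algebra in `U^+`. -/
def mk (q : K) : FreeAlgebra K (Fin 2) →ₐ[K] Uq q := RingQuot.mkAlgHom K (Rel q)

lemma mk_surj (q : K) : Function.Surjective (mk q) := RingQuot.mkAlgHom_surjective K (Rel q)

/-- generators: `true` is `A`, `false` is `A*`. -/
def E (q : K) (i : Bool) : Uq q := mk q (FreeAlgebra.ι K (if i then 0 else 1))

lemma serre_map {R S : Type*} [Ring R] [Algebra K R] [Ring S] [Algebra K S] (f : R →ₐ[K] S)
    (c : K) (x y : R) : f (serre c x y) = serre c (f x) (f y) := by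
  simp [serre]

lemma serre_E (q : K) (i : Bool) : serre (qthree q) (E q i) (E q (!i)) = 0 := by
  have h1 := RingQuot.mkAlgHom_rel K (Rel.one (q := q))
  have h2 := RingQuot.mkAlgHom_rel K (Rel.two (q := q))
  rw [map_zero] at h1 h2
  have h1' : mk q (serre (qthree q) (FreeAlgebra.ι K 0) (FreeAlgebra.ι K 1)) = 0 := h1
  have h2' : mk q (serre (qthree q) (FreeAlgebra.ι K 1) (FreeAlgebra.ι K 0)) = 0 := h2
  rw [serre_map] at h1' h2'
  cases i
  · simpa [E] using h2'
  · simpa [E] using h1'

/-- Universal property. -/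
def lift {B : Type*} [Ring B] [Algebra K B] (q : K) (x : Bool → B)
    (h : ∀ i, serre (qthree q) (x i) (x (!i)) = 0) : Uq q →ₐ[K] B :=
  RingQuot.liftAlgHom K ⟨FreeAlgebra.lift K ![x true, x false], by
    rintro _ _ (_ | _)
    · rw [serre_map, map_zero]; simpa using h true
    · rw [serre_map, map_zero]; simpa using h false⟩

@[simp] lemma lift_E {B : Type*} [Ring B] [Algebra K B] (q : K) (x : Bool → B)
    (h : ∀ i, serre (qthree q) (x i) (x (!i)) = 0) (i : Bool) : lift q x h (E q i) = x i := by
  unfold lift E mk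
  erw [RingQuot.liftAlgHom_mkAlgHom_apply]
  cases i <;> simp

/-- Words. -/
def M (q : K) (l : List Bool) : Uq q := (l.map (E q)).prod

@[simp] lemma M_nil (q : K) : M q [] = 1 := rfl
@[simp] lemma M_cons (q : K) (i : Bool) (l : List Bool) : M q (i :: l) = E q i * M q l := by
  simp [M]
lemma M_append (q : K) (l l' : List Bool) : M q (l ++ l') = M q l * M q l' := by
  simp [M]

lemma span_M (q : K) : Submodule.span K (Set.range (M q)) = ⊤ := by
  rw [eq_top_iff]
  rintro z -
  obtain ⟨w, rfl⟩ := mk_surj q z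
  have hmul : ∀ a b : Uq q, a ∈ Submodule.span K (Set.range (M q)) →
      b ∈ Submodule.span K (Set.range (M q)) → a * b ∈ Submodule.span K (Set.range (M q)) := by
    intro a b ha hb
    have h := Submodule.mul_mem_mul ha hb
    rw [Submodule.span_mul_span] at h
    refine Submodule.span_mono ?_ h
    rintro _ ⟨_, ⟨l, rfl⟩, _, ⟨l', rfl⟩, rfl⟩
    exact ⟨l ++ l', M_append q l l'⟩
  induction w using FreeAlgebra.induction with
  | grade0 r =>
    rw [AlgHom.commutes, Algebra.algebraMap_eq_smul_one]
    exact Submodule.smul_mem _ _ (Submodule.subset_span ⟨[], rfl⟩)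
  | grade1 x =>
    refine Submodule.subset_span ⟨[decide (x = 0)], ?_⟩
    fin_cases x <;> simp [E]
  | mul a b ha hb => rw [map_mul]; exact hmul _ _ ha hb
  | add a b ha hb => rw [map_add]; exact Submodule.add_mem _ ha hb

lemma ext_M (q : K) {V : Type*} [AddCommMonoid V] [Module K V] {f g : Uq q →ₗ[K] V}
    (h : ∀ l, f (M q l) = g (M q l)) : f = g :=
  LinearMap.ext_on_range (span_M q) h

lemma ext_gen (q : K) {B : Type*} [Ring B] [Algebra K B] {f g : Uq q →ₐ[K] B}
    (h : ∀ i, f (E q i) = g (E q i)) : f = g := by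
  have : f.toLinearMap = g.toLinearMap := by
    apply ext_M
    intro l
    induction l with
    | nil => simp
    | cons i l ih =>
      simp only [AlgHom.toLinearMap_apply] at ih ⊢
      simp only [M_cons, map_mul, h, ih]
  ext z
  exact LinearMap.congr_fun this z

end Basic

end Pool.Agent.R28.CenterUq
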