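import Pool.Agent.R28.CenterUqA

namespace Pool.Agent.R28.CenterUq

open scoped TensorProduct

universe u

section Abs

variable {K : Type u} [Field K]

/-- Coproduct-type lemma. -/
lemma serre_add {R : Type*} [Ring R] [Algebra K R] (q : K) (hq : q ≠ 0) (P P' Q Q' : R)
    (hP : serre (qthree q) P P' = 0) (hQ : serre (qthree q) Q Q' = 0)
    (h1 : Q * P = q ^ 2 • (P * Q)) (h2 : Q * P' = (q ^ 2)⁻¹ • (P' * Q))
    (h3 : Q' * P = (q ^ 2)⁻¹ • (P * Q')) :
    serre (qthree q) (P + Q) (P' + Q') = 0 := by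
  have h1' : ∀ w, Q * (P * w) = q ^ 2 • (P * (Q * w)) := by
    intro w; rw [← mul_assoc, h1, smul_mul_assoc, mul_assoc]
  have h2' : ∀ w, Q * (P' * w) = (q ^ 2)⁻¹ • (P' * (Q * w)) := by
    intro w; rw [← mul_assoc, h2, smul_mul_assoc, mul_assoc]
  have h3' : ∀ w, Q' * (P * w) = (q ^ 2)⁻¹ • (P * (Q' * w)) := by
    intro w; rw [← mul_assoc, h3, smul_mul_assoc, mul_assoc]
  have e : serre (qthree q) (P + Q) (P' + Q') =
      serre (qthree q) P P' + serre (qthree q) Q Q' := by
    unfold serre qthree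
    simp only [pow_succ, pow_zero, one_mul, mul_add, add_mul, mul_assoc]
    simp only [h1, h2, h3, h1', h2', h3', mul_smul_comm, smul_smul, mul_assoc]
    match_scalars <;> field_simp <;> ring
  rw [e, hP, hQ, add_zero]

lemma serre_smul {R : Type*} [Ring R] [Algebra K R] (c a b : K) (x y : R) :
    serre c (a • x) (b • y) = (a ^ 3 * b) • serre c x y := by
  unfold serre
  simp only [smul_pow, smul_mul_smul_comm, smul_sub, smul_add, smul_smul]
  congr 1
  · congr 1
    · congr 2; ring
    · congr 1; ring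
  · congr 1; ring

end Abs

section

variable {K : Type u} [Field K] (q : K)

/-- Torus automorphisms. -/
def tau (s : Bool → K) : Uq q →ₐ[K] Uq q :=
  lift q (fun i => s i • E q i) (by
    intro i
    rw [serre_smul, serre_E, smul_zero])

@[simp] lemma tau_E (s : Bool → K) (i : Bool) : tau q s (E q i) = s i • E q i := by
  simp [tau]

/-- `κ_i`. -/
def kap (i : Bool) : Uq q →ₐ[K] Uq q := tau q (fun j => if j = i then q ^ 2 else (q ^ 2)⁻¹)

lemma kap_E (i j : Bool) : kap q i (E q j) = (if j = i then q ^ 2 else (q ^ 2)⁻¹) • E q j := by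
  simp [kap]

@[simp] lemma kap_E_same (i : Bool) : kap q i (E q i) = q ^ 2 • E q i := by
  simp [kap_E]

@[simp] lemma kap_E_not (i : Bool) : kap q i (E q (!i)) = (q ^ 2)⁻¹ • E q (!i) := by
  simp [kap_E]

@[simp] lemma kap_not_E (i : Bool) : kap q (!i) (E q i) = (q ^ 2)⁻¹ • E q i := by
  simp [kap_E]

variable {q}

lemma kap_kap (hq : q ≠ 0) (i : Bool) (z : Uq q) : kap q i (kap q (!i) z) = z := by
  have : (kap q i).comp (kap q (!i)) = AlgHom.id K (Uq q) := by
    apply ext_gen
    intro j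
    have h : q ^ 2 ≠ 0 := pow_ne_zero _ hq
    cases i <;> cases j <;> simp [kap_E, smul_smul, h]
  exact AlgHom.congr_fun this z

lemma kap_kap' (hq : q ≠ 0) (i : Bool) (z : Uq q) : kap q (!i) (kap q i z) = z := by
  have := kap_kap hq (!i) z
  rwa [Bool.not_not] at this

variable (q)

/-- First part of the comultiplication operator. -/
def PP (i : Bool) : Module.End K (Uq q ⊗[K] Uq q) :=
  TensorProduct.map (LinearMap.mulLeft K (E q i)) LinearMap.id

/-- Second part of the comultiplication operator. -/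
def QQ (i : Bool) : Module.End K (Uq q ⊗[K] Uq q) :=
  TensorProduct.map (kap q i).toLinearMap (LinearMap.mulLeft K (E q i))

@[simp] lemma PP_tmul (i : Bool) (x y : Uq q) : PP q i (x ⊗ₜ y) = (E q i * x) ⊗ₜ y := rfl
@[simp] lemma QQ_tmul (i : Bool) (x y : Uq q) :
    QQ q i (x ⊗ₜ y) = (kap q i x) ⊗ₜ (E q i * y) := rfl

lemma serre_PP (i : Bool) : serre (qthree q) (PP q i) (PP q (!i)) = 0 := by
  apply TensorProduct.ext'
  intro x y
  have h : serre (qthree q) (PP q i) (PP q (!i)) (x ⊗ₜ y) =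
      (serre (qthree q) (E q i) (E q (!i)) * x) ⊗ₜ y := by
    simp [serre, pow_succ, sub_mul, add_mul, TensorProduct.sub_tmul, TensorProduct.add_tmul,
      TensorProduct.smul_tmul', mul_assoc]
  rw [h, serre_E]; simp

variable {q}

lemma serre_QQ (hq : q ≠ 0) (i : Bool) : serre (qthree q) (QQ q i) (QQ q (!i)) = 0 := by
  apply TensorProduct.ext'
  intro x y
  have h : serre (qthree q) (QQ q i) (QQ q (!i)) (x ⊗ₜ y) =
      (kap q i (kap q i x)) ⊗ₜ (serre (qthree q) (E q i) (E q (!i)) * y) := by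
    simp [serre, pow_succ, sub_mul, add_mul, TensorProduct.tmul_sub, TensorProduct.tmul_add,
      mul_assoc, kap_kap hq, kap_kap' hq]
  rw [h, serre_E]; simp

lemma QP (i : Bool) : QQ q i * PP q i = q ^ 2 • (PP q i * QQ q i) := by
  apply TensorProduct.ext'
  intro x y
  simp [TensorProduct.smul_tmul']

lemma QP' (i : Bool) : QQ q i * PP q (!i) = (q ^ 2)⁻¹ • (PP q (!i) * QQ q i) := by
  apply TensorProduct.ext'
  intro x y
  simp [TensorProduct.smul_tmul']

lemma Q'P (i : Bool) : QQ q (!i) * PP q i = (q ^ 2)⁻¹ • (PP q i * QQ q (!i)) := by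
  apply TensorProduct.ext'
  intro x y
  simp [TensorProduct.smul_tmul']

/-- The operator of left multiplication by `Δ(E_i)`. -/
def rho (q : K) (i : Bool) : Module.End K (Uq q ⊗[K] Uq q) := PP q i + QQ q i

@[simp] lemma rho_tmul (i : Bool) (x y : Uq q) :
    rho q i (x ⊗ₜ y) = (E q i * x) ⊗ₜ y + (kap q i x) ⊗ₜ (E q i * y) := rfl

lemma serre_rho (hq : q ≠ 0) (i : Bool) : serre (qthree q) (rho q i) (rho q (!i)) = 0 :=
  serre_add q hq _ _ _ _ (serre_PP q i) (serre_QQ hq i) (QP i) (QP' i) (Q'P i)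

/-- The comultiplication. -/
def Del (hq : q ≠ 0) : Uq q →ₗ[K] Uq q ⊗[K] Uq q :=
  (LinearMap.applyₗ ((1 : Uq q) ⊗ₜ[K] (1 : Uq q))) ∘ₗ (lift q (rho q) (serre_rho hq)).toLinearMap

@[simp] lemma Del_one (hq : q ≠ 0) : Del hq (1 : Uq q) = 1 ⊗ₜ 1 := by
  simp [Del]

lemma Del_mul_left (hq : q ≠ 0) (i : Bool) (w : Uq q) :
    Del hq (E q i * w) = rho q i (Del hq w) := by
  simp [Del]

/-- The operator of right multiplication by `Δ(E_i)`. -/
def GG (q : K) (i : Bool) : Module.End K (Uq q ⊗[K] Uq q) :=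
  TensorProduct.map (LinearMap.mulRight K (E q i)) (kap q i).toLinearMap +
  TensorProduct.map LinearMap.id (LinearMap.mulRight K (E q i))

@[simp] lemma GG_tmul (i : Bool) (x y : Uq q) :
    GG q i (x ⊗ₜ y) = (x * E q i) ⊗ₜ (kap q i y) + x ⊗ₜ (y * E q i) := rfl

lemma GG_rho (hq : q ≠ 0) (i j : Bool) (t : Uq q ⊗[K] Uq q) :
    GG q i (rho q j t) = rho q j (GG q i t) := by
  have h : GG q i * rho q j = rho q j * GG q i := by
    apply TensorProduct.ext'
    intro x y
    have h : q ^ 2 ≠ 0 := pow_ne_zero _ hq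
    have hij : (j = i) ∨ (j = !i) := by cases i <;> cases j <;> simp
    rcases hij with rfl | rfl
    · simp only [Module.End.mul_apply, rho_tmul, GG_tmul, map_add, map_mul, kap_E_same,
        mul_smul_comm, smul_mul_assoc, TensorProduct.tmul_smul, TensorProduct.smul_tmul', mul_assoc]
      abel
    · simp only [Module.End.mul_apply, rho_tmul, GG_tmul, map_add, map_mul, kap_E_not, kap_not_E,
        mul_smul_comm, smul_mul_assoc, TensorProduct.tmul_smul, TensorProduct.smul_tmul', mul_assoc]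
      abel
  exact LinearMap.congr_fun h t

lemma Del_mul_right (hq : q ≠ 0) (i : Bool) (w : Uq q) :
    Del hq (w * E q i) = GG q i (Del hq w) := by
  have : (Del hq) ∘ₗ (LinearMap.mulRight K (E q i)) = (GG q i) ∘ₗ (Del hq) := by
    apply ext_M
    intro l
    induction l with
    | nil =>
      have := Del_mul_left hq i 1
      simp at this
      simp [this]
    | cons j l ih =>
      simp only [LinearMap.comp_apply, LinearMap.mulRight_apply] at ih ⊢
      rw [M_cons, mul_assoc, Del_mul_left, ih, Del_mul_left, GG_rho hq]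
  exact LinearMap.congr_fun this w

end

end Pool.Agent.R28.CenterUq
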