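import Pool.Agent.R28.CenterUqB

namespace Pool.Agent.R28.CenterUq

open scoped TensorProduct

universe u

section

variable {K : Type u} [Field K] (q : K)

/-- Contraction of the right tensor factor with a functional. -/
def contr (f : Uq q →ₗ[K] K) : Uq q ⊗[K] Uq q →ₗ[K] Uq q :=
  (TensorProduct.rid K (Uq q)).toLinearMap ∘ₗ LinearMap.lTensor (Uq q) f

@[simp] lemma contr_tmul (f : Uq q →ₗ[K] K) (x y : Uq q) : contr q f (x ⊗ₜ y) = f y • x := by
  simp [contr]

lemma contr_smul (c : K) (f : Uq q →ₗ[K] K) (t : Uq q ⊗[K] Uq q) :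
    contr q (c • f) t = c • contr q f t := by
  induction t using TensorProduct.induction_on with
  | zero => simp
  | tmul x y => simp [smul_smul]
  | add a b ha hb => rw [map_add, map_add, ha, hb, smul_add]

lemma contr_zero (t : Uq q ⊗[K] Uq q) : contr q 0 t = 0 := by
  induction t using TensorProduct.induction_on with
  | zero => simp
  | tmul x y => simp
  | add a b ha hb => rw [map_add, ha, hb, add_zero]

lemma contr_rho (f : Uq q →ₗ[K] K) (i : Bool) (t : Uq q ⊗[K] Uq q) :
    contr q f (rho q i t) =
      E q i * contr q f t + kap q i (contr q (f ∘ₗ LinearMap.mulLeft K (E q i)) t) := by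
  induction t using TensorProduct.induction_on with
  | zero => simp
  | tmul x y => simp
  | add a b ha hb =>
    simp only [map_add, ha, hb, mul_add]
    abel

lemma contr_GG (f : Uq q →ₗ[K] K) (i : Bool) (t : Uq q ⊗[K] Uq q) :
    contr q f (GG q i t) =
      contr q (f ∘ₗ (kap q i).toLinearMap) t * E q i +
        contr q (f ∘ₗ LinearMap.mulRight K (E q i)) t := by
  induction t using TensorProduct.induction_on with
  | zero => simp
  | tmul x y => simp
  | add a b ha hb =>
    simp only [map_add, ha, hb, add_mul]
    abel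

/-- Counit. -/
def eps : Uq q →ₐ[K] K := lift q (fun _ => 0) (by intro i; simp [serre])

@[simp] lemma eps_E (i : Bool) : eps q (E q i) = 0 := by simp [eps]

lemma eps_kap (i : Bool) (w : Uq q) : eps q (kap q i w) = eps q w := by
  have : (eps q).comp (kap q i) = eps q := by
    apply ext_gen; intro j; rw [AlgHom.comp_apply, kap_E, map_smul, eps_E, smul_zero]
  exact AlgHom.congr_fun this w

/-- Left contraction with the counit. -/
def contrL : Uq q ⊗[K] Uq q →ₗ[K] Uq q :=
  (TensorProduct.lid K (Uq q)).toLinearMap ∘ₗ LinearMap.rTensor (Uq q) (eps q).toLinearMap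

@[simp] lemma contrL_tmul (x y : Uq q) : contrL q (x ⊗ₜ y) = eps q x • y := by
  simp [contrL]

lemma contrL_rho (i : Bool) (t : Uq q ⊗[K] Uq q) :
    contrL q (rho q i t) = E q i * contrL q t := by
  induction t using TensorProduct.induction_on with
  | zero => simp
  | tmul x y => simp [eps_kap]
  | add a b ha hb => simp only [map_add, ha, hb, mul_add]

lemma contrL_Del (hq : q ≠ 0) (w : Uq q) : contrL q (Del hq w) = w := by
  have : (contrL q) ∘ₗ (Del hq) = LinearMap.id := by
    apply ext_M
    intro l
    induction l with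
    | nil => simp
    | cons i l ih =>
      simp only [LinearMap.comp_apply, LinearMap.id_apply] at ih ⊢
      rw [M_cons, Del_mul_left, contrL_rho, ih]
  exact LinearMap.congr_fun this w

lemma eps_comp_left (i : Bool) : (eps q).toLinearMap ∘ₗ LinearMap.mulLeft K (E q i) = 0 := by
  ext w; simp

lemma contr_eps_Del (hq : q ≠ 0) (w : Uq q) : contr q (eps q).toLinearMap (Del hq w) = w := by
  have : (contr q (eps q).toLinearMap) ∘ₗ (Del hq) = LinearMap.id := by
    apply ext_M
    intro l
    induction l with
    | nil => simp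
    | cons i l ih =>
      simp only [LinearMap.comp_apply, LinearMap.id_apply] at ih ⊢
      rw [M_cons, Del_mul_left, contr_rho, ih, eps_comp_left, contr_zero, map_zero, add_zero]
  exact LinearMap.congr_fun this w

/-- Homomorphism to the dual numbers. -/
def dn (i : Bool) : Uq q →ₐ[K] DualNumber K :=
  lift q (fun j => if j = i then DualNumber.eps else 0) (by
    intro j
    cases i <;> cases j <;> simp [serre])

lemma dn_E (i j : Bool) : dn q i (E q j) = if j = i then DualNumber.eps else 0 := by
  simp [dn]

lemma dn_fst (i : Bool) (w : Uq q) : (dn q i w).fst = eps q w := by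
  have : (TrivSqZeroExt.fstHom K K K).comp (dn q i) = eps q := by
    apply ext_gen
    intro j
    cases i <;> cases j <;> simp [dn_E]
  exact AlgHom.congr_fun this w

/-- The functional `E_i ↦ 1`, vanishing in all other degrees. -/
def ff (i : Bool) : Uq q →ₗ[K] K :=
  (TrivSqZeroExt.sndHom K K) ∘ₗ (dn q i).toLinearMap

lemma ff_apply (i : Bool) (w : Uq q) : ff q i w = (dn q i w).snd := rfl

lemma ff_left (i : Bool) : ff q i ∘ₗ LinearMap.mulLeft K (E q i) = (eps q).toLinearMap := by
  ext w
  simp [ff_apply, dn_E, dn_fst]

lemma ff_left_not (i : Bool) : ff q i ∘ₗ LinearMap.mulLeft K (E q (!i)) = 0 := by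
  ext w
  simp [ff_apply, dn_E]

lemma ff_right (i : Bool) : ff q i ∘ₗ LinearMap.mulRight K (E q i) = (eps q).toLinearMap := by
  ext w
  simp [ff_apply, dn_E, dn_fst]

lemma ff_kap (i : Bool) : ff q i ∘ₗ (kap q i).toLinearMap = q ^ 2 • ff q i := by
  apply ext_M
  intro l
  cases l with
  | nil => simp [ff_apply]
  | cons j l =>
    by_cases h : j = i
    · subst h
      simp [ff_apply, dn_E, dn_fst, eps_kap]
    · have : j = !i := by cases i <;> cases j <;> simp_all
      subst this
      simp [ff_apply, dn_E]

/-- The skew derivation. -/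
def rr (hq : q ≠ 0) (i : Bool) : Uq q →ₗ[K] Uq q := contr q (ff q i) ∘ₗ Del hq

variable {q} (hq : q ≠ 0)

lemma rr_one (i : Bool) : rr q hq i 1 = 0 := by
  simp [rr, ff_apply]

lemma rr_left (i : Bool) (w : Uq q) :
    rr q hq i (E q i * w) = E q i * rr q hq i w + kap q i w := by
  simp only [rr, LinearMap.comp_apply]
  rw [Del_mul_left, contr_rho, ff_left, contr_eps_Del]

lemma rr_left_not (i : Bool) (w : Uq q) :
    rr q hq i (E q (!i) * w) = E q (!i) * rr q hq i w := by
  simp only [rr, LinearMap.comp_apply]
  rw [Del_mul_left, contr_rho, ff_left_not, contr_zero, map_zero, add_zero]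

lemma rr_right (i : Bool) (w : Uq q) :
    rr q hq i (w * E q i) = q ^ 2 • (rr q hq i w * E q i) + w := by
  simp only [rr, LinearMap.comp_apply]
  rw [Del_mul_right, contr_GG, ff_right, contr_eps_Del, ff_kap, contr_smul, smul_mul_assoc]

lemma rr_kap (i : Bool) (w : Uq q) :
    rr q hq i (kap q i w) = q ^ 2 • kap q i (rr q hq i w) := by
  have : rr q hq i ∘ₗ (kap q i).toLinearMap = q ^ 2 • ((kap q i).toLinearMap ∘ₗ rr q hq i) := by
    apply ext_M
    intro l
    induction l with
    | nil => simp [rr_one]
    | cons j l ih =>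
      simp only [LinearMap.comp_apply, LinearMap.smul_apply, AlgHom.toLinearMap_apply] at ih ⊢
      by_cases h : j = i
      · subst h
        rw [M_cons, map_mul, kap_E_same, smul_mul_assoc, map_smul, rr_left, rr_left, map_add,
          map_mul, kap_E_same, ih]
        simp [smul_smul]
      · have : j = !i := by cases i <;> cases j <;> simp_all
        subst this
        rw [M_cons, map_mul, kap_E_not, smul_mul_assoc, map_smul, rr_left_not, rr_left_not,
          map_mul, kap_E_not, ih]
        simp [smul_smul, mul_comm]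
  exact LinearMap.congr_fun this w

end

end Pool.Agent.R28.CenterUq
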