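import Pool.Agent.R28.CenterUqC

namespace Pool.Agent.R28.CenterUq

open scoped TensorProduct

universe u

section LemmaR

variable {K : Type u} [Field K] {q : K} (hq : q ≠ 0)


lemma zpow_ne_one (hroot : ∀ n : ℕ, 0 < n → q ^ n ≠ 1) (m : ℤ) (hm : m ≠ 0) : q ^ m ≠ 1 := by
  intro h
  rcases lt_or_gt_of_ne hm with h1 | h1
  · have : q ^ (-m) = 1 := by rw [zpow_neg, h, inv_one]
    obtain ⟨k, hk⟩ := Int.eq_ofNat_of_zero_le (show 0 ≤ -m by omega)
    rw [hk] at this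
    exact hroot k (by omega) (by simpa using this)
  · obtain ⟨k, hk⟩ := Int.eq_ofNat_of_zero_le (show 0 ≤ m by omega)
    rw [hk] at h
    exact hroot k (by omega) (by simpa using h)

/-- The recursion scalar: `s_0 = 0`, `s_{k+1} = s_k + q^(c-2k) - q^(e+2k)`. -/
noncomputable def ss (q : K) (c e : ℤ) : ℕ → K
  | 0 => 0
  | k + 1 => ss q c e k + q ^ (c - 2 * k) - q ^ (e + 2 * k)

include hq in
lemma ss_closed (c e : ℤ) (k : ℕ) :
    (q - q⁻¹) * ss q c e k =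
      (q ^ (k : ℤ) - q ^ (-(k : ℤ))) * (q ^ (c - k + 1) - q ^ (e + k - 1)) := by
  induction k with
  | zero => simp [ss]
  | succ k ih =>
    rw [ss, mul_sub, mul_add, ih]
    have e1 : (((k + 1 : ℕ) : ℤ)) = (k : ℤ) + 1 := by push_cast; ring
    rw [e1]
    have hk : q ^ (k : ℤ) ≠ 0 := zpow_ne_zero _ hq
    have hc : q ^ c ≠ 0 := zpow_ne_zero _ hq
    have he : q ^ e ≠ 0 := zpow_ne_zero _ hq
    have f1 : q ^ (c - 2 * (k : ℤ)) = q ^ c / (q ^ (k : ℤ)) ^ 2 := by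
      rw [zpow_sub₀ hq, two_mul, zpow_add₀ hq, sq]
    have f2 : q ^ (e + 2 * (k : ℤ)) = q ^ e * (q ^ (k : ℤ)) ^ 2 := by
      rw [zpow_add₀ hq, two_mul, zpow_add₀ hq, sq]
    have f3 : q ^ (-(k : ℤ)) = (q ^ (k : ℤ))⁻¹ := zpow_neg _ _
    have f4 : q ^ (-((k : ℤ) + 1)) = (q ^ (k : ℤ) * q)⁻¹ := by
      rw [zpow_neg, zpow_add₀ hq, zpow_one]
    have f5 : q ^ ((k : ℤ) + 1) = q ^ (k : ℤ) * q := by rw [zpow_add₀ hq, zpow_one]
    have f6 : q ^ (c - (k : ℤ) + 1) = q ^ c / q ^ (k : ℤ) * q := by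
      rw [zpow_add₀ hq, zpow_sub₀ hq, zpow_one]
    have f7 : q ^ (e + (k : ℤ) - 1) = q ^ e * q ^ (k : ℤ) / q := by
      rw [zpow_sub₀ hq, zpow_add₀ hq, zpow_one]
    have f8 : q ^ (c - ((k : ℤ) + 1) + 1) = q ^ c / q ^ (k : ℤ) := by
      rw [show c - ((k : ℤ) + 1) + 1 = c - k by ring, zpow_sub₀ hq]
    have f9 : q ^ (e + ((k : ℤ) + 1) - 1) = q ^ e * q ^ (k : ℤ) := by
      rw [show e + ((k : ℤ) + 1) - 1 = e + k by ring, zpow_add₀ hq]
    rw [f1, f2, f3, f4, f5, f6, f7, f8, f9]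
    field_simp
    ring

include hq in
lemma ss_ne_zero (hroot : ∀ n : ℕ, 0 < n → q ^ n ≠ 1) (c e : ℤ) (hce : c < e) (k : ℕ) :
    ss q c e (k + 1) ≠ 0 := by
  intro h
  have h1 := ss_closed hq c e (k + 1)
  rw [h, mul_zero] at h1
  rcases mul_eq_zero.1 h1.symm with h2 | h2
  · have h3 : q ^ (((k + 1 : ℕ) : ℤ)) = q ^ (-(((k + 1 : ℕ) : ℤ))) := sub_eq_zero.1 h2
    have h4 : q ^ (2 * (((k + 1 : ℕ) : ℤ))) = 1 := by
      rw [two_mul, zpow_add₀ hq]
      nth_rw 2 [h3]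
      rw [zpow_neg, mul_inv_cancel₀ (zpow_ne_zero _ hq)]
    exact zpow_ne_one hroot _ (by omega) h4
  · have h3 := sub_eq_zero.1 h2
    have h4 : q ^ ((c - ((k + 1 : ℕ) : ℤ) + 1) - (e + ((k + 1 : ℕ) : ℤ) - 1)) = 1 := by
      rw [zpow_sub₀ hq, h3, div_self (zpow_ne_zero _ hq)]
    exact zpow_ne_one hroot _ (by push_cast; omega) h4

lemma iter_kap (i : Bool) (c : ℤ) (u : Uq q) (hk : kap q i u = q ^ c • u) (k : ℕ) :
    kap q i (((rr q hq i) ^ k) u) = q ^ (c - 2 * k) • ((rr q hq i) ^ k) u := by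
  induction k with
  | zero => simpa using hk
  | succ k ih =>
    have h := rr_kap hq i (((rr q hq i) ^ k) u)
    rw [ih, map_smul] at h
    rw [pow_succ', Module.End.mul_apply]
    have h2 : q ^ 2 ≠ 0 := pow_ne_zero _ hq
    have h3 : kap q i (rr q hq i (((rr q hq i) ^ k) u)) =
        (q ^ 2)⁻¹ • q ^ (c - 2 * (k : ℤ)) • (rr q hq i (((rr q hq i) ^ k) u)) := by
      rw [h, smul_smul, inv_mul_cancel₀ h2, one_smul]
    rw [h3, smul_smul]
    congr 1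
    have : c - 2 * (((k + 1 : ℕ) : ℤ)) = (c - 2 * k) - 2 := by push_cast; ring
    rw [this, zpow_sub₀ hq (c - 2 * k) 2]
    have h4 : q ^ (2 : ℤ) = q ^ 2 := by norm_cast
    rw [h4, div_eq_mul_inv, mul_comm]

lemma iter_D (i : Bool) (c e : ℤ) (u : Uq q) (hk : kap q i u = q ^ c • u)
    (hE : E q i * u = q ^ e • (u * E q i)) (k : ℕ) :
    E q i * ((rr q hq i) ^ (k + 1)) u - q ^ (e + 2 * ((k + 1 : ℕ) : ℤ)) •
      (((rr q hq i) ^ (k + 1)) u * E q i) = - ss q c e (k + 1) • ((rr q hq i) ^ k) u := by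
  induction k with
  | zero =>
    have h := congrArg (rr q hq i) hE
    rw [rr_left, map_smul, rr_right, hk] at h
    have e1 : q ^ (e + 2 * ((0 + 1 : ℕ) : ℤ)) = q ^ e * q ^ 2 := by
      rw [zpow_add₀ hq]; norm_cast
    rw [e1]
    simp only [zero_add, pow_one, pow_zero, Module.End.one_apply, ss]
    have h' : E q i * rr q hq i u = q ^ e • (q ^ 2 • (rr q hq i u * E q i) + u) - q ^ c • u :=
      eq_sub_of_add_eq h
    rw [h']
    simp only [smul_add, smul_smul]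
    have e2 : q ^ (c - 2 * ((0 : ℕ) : ℤ)) = q ^ c := by simp
    have e3 : q ^ (e + 2 * ((0 : ℕ) : ℤ)) = q ^ e := by simp
    rw [e2, e3]
    module
  | succ k ih =>
    set v := ((rr q hq i) ^ (k + 1)) u with hv
    set w := ((rr q hq i) ^ k) u with hw
    have hvw : rr q hq i w = v := by
      rw [hv, hw, pow_succ', Module.End.mul_apply]
    have h := congrArg (rr q hq i) ih
    rw [map_sub, map_smul, map_smul, rr_left, rr_right, hvw, iter_kap hq i c u hk (k + 1)] at h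
    rw [← hv] at h
    have e0 : ((rr q hq i) ^ (k + 1 + 1)) u = rr q hq i v := by
      rw [pow_succ', Module.End.mul_apply]
    rw [e0]
    have e1 : q ^ (e + 2 * ((k + 1 + 1 : ℕ) : ℤ)) = q ^ (e + 2 * ((k + 1 : ℕ) : ℤ)) * q ^ 2 := by
      have : (e + 2 * ((k + 1 + 1 : ℕ) : ℤ)) = (e + 2 * ((k + 1 : ℕ) : ℤ)) + 2 := by
        push_cast; ring
      rw [this, zpow_add₀ hq]; norm_cast
    rw [e1]
    have e2 : ss q c e (k + 1 + 1) =
      ss q c e (k + 1) + q ^ (c - 2 * ((k + 1 : ℕ) : ℤ)) - q ^ (e + 2 * ((k + 1 : ℕ) : ℤ)) := rfl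
    rw [e2]
    have h' : E q i * rr q hq i v = -ss q c e (k + 1) • v +
        q ^ (e + 2 * ((k + 1 : ℕ) : ℤ)) • (q ^ 2 • (rr q hq i v * E q i) + v)
        - q ^ (c - 2 * ((k + 1 : ℕ) : ℤ)) • v := by
      rw [← h]; abel
    rw [h']
    module

/-- The key vanishing lemma. -/
lemma lemmaR (hroot : ∀ n : ℕ, 0 < n → q ^ n ≠ 1) (i : Bool) (c e : ℤ) (hce : c < e) (u : Uq q)
    (hk : kap q i u = q ^ c • u) (hE : E q i * u = q ^ e • (u * E q i))
    (N : ℕ) (hN : ((rr q hq i) ^ N) u = 0) : u = 0 := by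
  induction N with
  | zero => simpa using hN
  | succ k ih =>
    apply ih
    have h := iter_D hq i c e u hk hE k
    rw [hN, mul_zero, zero_mul, smul_zero, sub_zero] at h
    rcases smul_eq_zero.1 h.symm with h1 | h1
    · exact absurd (neg_eq_zero.1 h1) (ss_ne_zero hq hroot c e hce k)
    · exact h1

end LemmaR

end Pool.Agent.R28.CenterUq
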