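import Pool.Agent.R28.CenterUqD

namespace Pool.Agent.R28.CenterUq

open scoped TensorProduct

universe u

section Grading

variable {K : Type u} [Field K] (q : K)

lemma bool_ne {i j : Bool} (h : ¬ j = i) : j = !i := by cases i <;> cases j <;> simp_all

/-- Degree of a letter. -/
def ee (i : Bool) : ℕ × ℕ := if i then (1, 0) else (0, 1)

/-- Degree of a word. -/
def deg : List Bool → ℕ × ℕ
  | [] => 0
  | i :: l => ee i + deg l

@[simp] lemma deg_nil : deg [] = 0 := rfl
@[simp] lemma deg_cons (i : Bool) (l : List Bool) : deg (i :: l) = ee i + deg l := rfl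

lemma deg_append (l l' : List Bool) : deg (l ++ l') = deg l + deg l' := by
  induction l with
  | nil => simp
  | cons i l ih => simp [ih, add_assoc]

lemma deg_reverse (l : List Bool) : deg l.reverse = deg l := by
  induction l with
  | nil => simp
  | cons i l ih => simp [deg_append, ih, add_comm]

lemma deg_eq_zero (l : List Bool) (h : deg l = 0) : l = [] := by
  cases l with
  | nil => rfl
  | cons i l =>
    exfalso
    rw [deg_cons, Prod.ext_iff] at h
    cases i <;> simp [ee] at h

/-- Weights. -/
def wt (i : Bool) (d : ℕ × ℕ) : ℤ := if i then 2 * ((d.1 : ℤ) - d.2) else 2 * ((d.2 : ℤ) - d.1)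

lemma wt_not (i : Bool) (d : ℕ × ℕ) : wt (!i) d = - wt i d := by
  cases i <;> simp [wt] <;> ring

variable {q}

lemma kap_M (hq : q ≠ 0) (i : Bool) (l : List Bool) :
    kap q i (M q l) = q ^ (wt i (deg l)) • M q l := by
  have h2 : q ^ 2 ≠ 0 := pow_ne_zero _ hq
  have e2 : q ^ 2 = q ^ (2 : ℤ) := by norm_cast
  induction l with
  | nil => simp [wt]
  | cons j l ih =>
    rw [M_cons, map_mul, kap_E, ih, smul_mul_assoc, mul_smul_comm, smul_smul]
    congr 1
    by_cases h : j = i
    · subst h
      rw [if_pos rfl, e2, ← zpow_add₀ hq]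
      congr 1
      cases j
      · simp only [wt, ee, deg_cons, Prod.fst_add, Prod.snd_add, Bool.false_eq_true, if_false]
        push_cast; ring
      · simp only [wt, ee, deg_cons, Prod.fst_add, Prod.snd_add, if_true]
        push_cast; ring
    · have : j = !i := bool_ne h
      subst this
      rw [if_neg h, e2, ← zpow_neg, ← zpow_add₀ hq]
      congr 1
      cases i
      · simp only [wt, ee, deg_cons, Prod.fst_add, Prod.snd_add, Bool.false_eq_true, if_false,
          Bool.not_false, if_true]
        push_cast; ring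
      · simp only [wt, ee, deg_cons, Prod.fst_add, Prod.snd_add, if_true, Bool.not_true,
          Bool.false_eq_true, if_false]
        push_cast; ring

variable (q)

lemma serre_single (c : K) (a b : ℕ × ℕ) (x y : Uq q) :
    serre c (AddMonoidAlgebra.single a x) (AddMonoidAlgebra.single b y) =
      AddMonoidAlgebra.single (a + a + a + b) (serre c x y) := by
  unfold serre
  simp only [pow_succ, pow_zero, one_mul, AddMonoidAlgebra.single_mul_single,
    AddMonoidAlgebra.smul_single, AddMonoidAlgebra.single_sub, AddMonoidAlgebra.single_add]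
  have h1 : a + a + b + a = a + a + a + b := by abel
  have h2 : a + b + (a + a) = a + a + a + b := by abel
  have h3 : b + (a + a + a) = a + a + a + b := by abel
  rw [h1, h2, h3]

/-- The grading homomorphism. -/
noncomputable def phi : Uq q →ₐ[K] AddMonoidAlgebra (Uq q) (ℕ × ℕ) :=
  lift q (fun i => AddMonoidAlgebra.single (ee i) (E q i)) (by
    intro i
    rw [serre_single, serre_E, AddMonoidAlgebra.single_zero])

lemma phi_E (i : Bool) : phi q (E q i) = AddMonoidAlgebra.single (ee i) (E q i) := by
  simp [phi]

lemma phi_M (l : List Bool) : phi q (M q l) = AddMonoidAlgebra.single (deg l) (M q l) := by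
  induction l with
  | nil => simp [AddMonoidAlgebra.one_def]
  | cons i l ih =>
    rw [M_cons, map_mul, ih, phi_E, AddMonoidAlgebra.single_mul_single, deg_cons]

/-- Homogeneous components. -/
noncomputable def pr (d : ℕ × ℕ) : Uq q →ₗ[K] Uq q where
  toFun z := (phi q z).coeff d
  map_add' x y := by simp
  map_smul' c x := by simp

lemma pr_M (d : ℕ × ℕ) (l : List Bool) :
    pr q d (M q l) = if deg l = d then M q l else 0 := by
  show (phi q (M q l)).coeff d = _
  rw [phi_M, AddMonoidAlgebra.coeff_single, Finsupp.single_apply]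

/-- The span of the words of degree `d`. -/
def HH (d : ℕ × ℕ) : Submodule K (Uq q) := Submodule.span K {z | ∃ l, deg l = d ∧ M q l = z}

lemma M_mem_HH (l : List Bool) : M q l ∈ HH q (deg l) := Submodule.subset_span ⟨l, rfl, rfl⟩

lemma pr_mem (d : ℕ × ℕ) (z : Uq q) : pr q d z ∈ HH q d := by
  have h : z ∈ Submodule.span K (Set.range (M q)) := by rw [span_M]; trivial
  induction h using Submodule.span_induction with
  | mem x hx =>
    obtain ⟨l, rfl⟩ := hx
    rw [pr_M]
    split_ifs with h
    · rw [← h]; exact M_mem_HH q l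
    · exact Submodule.zero_mem _
  | zero => rw [map_zero]; exact Submodule.zero_mem _
  | add x y _ _ hx hy => rw [map_add]; exact Submodule.add_mem _ hx hy
  | smul c x _ hx => rw [map_smul]; exact Submodule.smul_mem _ _ hx

lemma pr_of_mem (d : ℕ × ℕ) (z : Uq q) (hz : z ∈ HH q d) : pr q d z = z := by
  induction hz using Submodule.span_induction with
  | mem x hx =>
    obtain ⟨l, h, rfl⟩ := hx
    rw [pr_M, if_pos h]
  | zero => rw [map_zero]
  | add x y _ _ hx hy => rw [map_add, hx, hy]
  | smul c x _ hx => rw [map_smul, hx]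

lemma eq_of_pr_eq_zero (z : Uq q) (h : ∀ d, d ≠ 0 → pr q d z = 0) : z = pr q 0 z := by
  let aug : (ℕ × ℕ →₀ Uq q) →ₗ[K] Uq q := Finsupp.lsum K (fun _ => LinearMap.id)
  let cf : AddMonoidAlgebra (Uq q) (ℕ × ℕ) →ₗ[K] (ℕ × ℕ →₀ Uq q) :=
    { toFun := fun x => x.coeff, map_add' := fun x y => by simp, map_smul' := fun c x => by simp }
  have h1 : ∀ w, aug ((phi q w).coeff) = w := by
    intro w
    have : aug ∘ₗ cf ∘ₗ (phi q).toLinearMap = LinearMap.id := by
      apply ext_M
      intro l
      show aug ((phi q (M q l)).coeff) = M q l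
      rw [phi_M, AddMonoidAlgebra.coeff_single]
      simp [aug]
    exact LinearMap.congr_fun this w
  have h2 : (phi q z).coeff = Finsupp.single 0 (pr q 0 z) := by
    ext d
    by_cases hd : d = 0
    · subst hd; rw [Finsupp.single_eq_same]; rfl
    · rw [Finsupp.single_eq_of_ne hd]; exact h d hd
  have h3 := h1 z
  rw [h2] at h3
  rw [← h3]
  simp only [aug, Finsupp.lsum_single, LinearMap.id_apply]
  exact (pr_of_mem q 0 _ (pr_mem q 0 z)).symm

lemma pr_mul_left (i : Bool) (d : ℕ × ℕ) (w : Uq q) :
    pr q (ee i + d) (E q i * w) = E q i * pr q d w := by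
  have : pr q (ee i + d) ∘ₗ LinearMap.mulLeft K (E q i) =
      LinearMap.mulLeft K (E q i) ∘ₗ pr q d := by
    apply ext_M
    intro l
    simp only [LinearMap.comp_apply, LinearMap.mulLeft_apply]
    rw [← M_cons, pr_M, pr_M, deg_cons]
    by_cases h : deg l = d
    · rw [if_pos h, if_pos (by rw [h]), M_cons]
    · rw [if_neg h, if_neg (fun h' => h (add_left_cancel h')), mul_zero]
  exact LinearMap.congr_fun this w

lemma M_snoc (l : List Bool) (i : Bool) : M q l * E q i = M q (l ++ [i]) := by
  rw [M_append]; simp

lemma pr_mul_right (i : Bool) (d : ℕ × ℕ) (w : Uq q) :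
    pr q (ee i + d) (w * E q i) = pr q d w * E q i := by
  have : pr q (ee i + d) ∘ₗ LinearMap.mulRight K (E q i) =
      LinearMap.mulRight K (E q i) ∘ₗ pr q d := by
    apply ext_M
    intro l
    simp only [LinearMap.comp_apply, LinearMap.mulRight_apply]
    rw [M_snoc, pr_M, pr_M, deg_append, deg_cons, deg_nil, add_zero, add_comm (deg l)]
    by_cases h : deg l = d
    · rw [if_pos h, if_pos (by rw [h]), M_snoc]
    · rw [if_neg h, if_neg (fun h' => h (add_left_cancel h')), zero_mul]
  exact LinearMap.congr_fun this w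

lemma pr_mul_left_zero (i : Bool) (d : ℕ × ℕ) (hd : ¬ ∃ d', d = ee i + d') (w : Uq q) :
    pr q d (E q i * w) = 0 := by
  have : pr q d ∘ₗ LinearMap.mulLeft K (E q i) = 0 := by
    apply ext_M
    intro l
    simp only [LinearMap.comp_apply, LinearMap.mulLeft_apply, LinearMap.zero_apply]
    rw [← M_cons, pr_M, deg_cons, if_neg (fun h => hd ⟨_, h.symm⟩)]
  exact LinearMap.congr_fun this w

lemma pr_mul_right_zero (i : Bool) (d : ℕ × ℕ) (hd : ¬ ∃ d', d = ee i + d') (w : Uq q) :
    pr q d (w * E q i) = 0 := by
  have : pr q d ∘ₗ LinearMap.mulRight K (E q i) = 0 := by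
    apply ext_M
    intro l
    simp only [LinearMap.comp_apply, LinearMap.mulRight_apply, LinearMap.zero_apply]
    rw [M_snoc, pr_M, deg_append, deg_cons, deg_nil, add_zero, add_comm (deg l),
      if_neg (fun h => hd ⟨_, h.symm⟩)]
  exact LinearMap.congr_fun this w

variable {q}

lemma pr_kap (hq : q ≠ 0) (i : Bool) (d : ℕ × ℕ) (w : Uq q) :
    pr q d (kap q i w) = q ^ (wt i d) • pr q d w := by
  have : pr q d ∘ₗ (kap q i).toLinearMap = q ^ (wt i d) • pr q d := by
    apply ext_M
    intro l
    simp only [LinearMap.comp_apply, AlgHom.toLinearMap_apply, LinearMap.smul_apply]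
    rw [kap_M hq, map_smul, pr_M]
    by_cases h : deg l = d
    · rw [if_pos h, h]
    · rw [if_neg h, smul_zero, smul_zero]
  exact LinearMap.congr_fun this w

lemma kap_of_mem (hq : q ≠ 0) (i : Bool) (d : ℕ × ℕ) (z : Uq q) (hz : z ∈ HH q d) :
    kap q i z = q ^ (wt i d) • z := by
  induction hz using Submodule.span_induction with
  | mem x hx =>
    obtain ⟨l, h, rfl⟩ := hx
    rw [kap_M hq, h]
  | zero => rw [map_zero, smul_zero]
  | add x y _ _ hx hy => rw [map_add, hx, hy, smul_add]
  | smul c x _ hx => rw [map_smul, hx, smul_comm]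

variable (q) in
lemma pr_zero (z : Uq q) : pr q 0 z = algebraMap K (Uq q) (eps q z) := by
  have : pr q 0 = (Algebra.linearMap K (Uq q)) ∘ₗ (eps q).toLinearMap := by
    apply ext_M
    intro l
    rw [pr_M]
    simp only [LinearMap.comp_apply, AlgHom.toLinearMap_apply, Algebra.linearMap_apply]
    cases l with
    | nil => simp
    | cons i l =>
      rw [if_neg (fun h => by simpa using deg_eq_zero _ h)]
      simp
  exact LinearMap.congr_fun this z

/-- Local nilpotency. -/
lemma rr_nilp_M (hq : q ≠ 0) (i : Bool) (n : ℕ) :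
    ∀ z ∈ Submodule.span K {z | ∃ l : List Bool, l.length = n + 1 ∧ M q l = z},
      rr q hq i z ∈ Submodule.span K {z | ∃ l : List Bool, l.length = n ∧ M q l = z} := by
  have key : ∀ l : List Bool, ∀ n, l.length = n + 1 →
      rr q hq i (M q l) ∈ Submodule.span K {z | ∃ l : List Bool, l.length = n ∧ M q l = z} := by
    intro l
    induction l with
    | nil => intro n h; simp at h
    | cons j l ih =>
      intro n hn
      have hl : l.length = n := by simpa using hn
      have hmem : E q j * rr q hq i (M q l) ∈
          Submodule.span K {z | ∃ l : List Bool, l.length = n ∧ M q l = z} := by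
        cases n with
        | zero =>
          have : l = [] := List.length_eq_zero_iff.1 hl
          subst this
          rw [M_nil, rr_one, mul_zero]
          exact Submodule.zero_mem _
        | succ m =>
          have h := ih m hl
          have h2 : ∀ z ∈ Submodule.span K {z | ∃ l : List Bool, l.length = m ∧ M q l = z},
              E q j * z ∈ Submodule.span K {z | ∃ l : List Bool, l.length = m + 1 ∧ M q l = z} := by
            intro z hz
            induction hz using Submodule.span_induction with
            | mem x hx =>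
              obtain ⟨l', h, rfl⟩ := hx
              exact Submodule.subset_span ⟨j :: l', by simp [h], by simp⟩
            | zero => rw [mul_zero]; exact Submodule.zero_mem _
            | add x y _ _ hx hy => rw [mul_add]; exact Submodule.add_mem _ hx hy
            | smul c x _ hx => rw [mul_smul_comm]; exact Submodule.smul_mem _ _ hx
          exact h2 _ h
      by_cases h : j = i
      · subst h
        rw [M_cons, rr_left]
        refine Submodule.add_mem _ hmem ?_
        rw [kap_M hq]
        exact Submodule.smul_mem _ _ (Submodule.subset_span ⟨l, hl, rfl⟩)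
      · have : j = !i := bool_ne h
        subst this
        rw [M_cons, rr_left_not]
        exact hmem
  intro z hz
  induction hz using Submodule.span_induction with
  | mem x hx =>
    obtain ⟨l, h, rfl⟩ := hx
    exact key l n h
  | zero => rw [map_zero]; exact Submodule.zero_mem _
  | add x y _ _ hx hy => rw [map_add]; exact Submodule.add_mem _ hx hy
  | smul c x _ hx => rw [map_smul]; exact Submodule.smul_mem _ _ hx

lemma rr_nilp (hq : q ≠ 0) (i : Bool) (n : ℕ) :
    ∀ z ∈ Submodule.span K {z | ∃ l : List Bool, l.length = n ∧ M q l = z},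
      ((rr q hq i) ^ (n + 1)) z = 0 := by
  induction n with
  | zero =>
    intro z hz
    rw [pow_one]
    induction hz using Submodule.span_induction with
    | mem x hx =>
      obtain ⟨l, h, rfl⟩ := hx
      have : l = [] := List.length_eq_zero_iff.1 h
      subst this
      rw [M_nil, rr_one]
    | zero => rw [map_zero]
    | add x y _ _ hx hy => rw [map_add, hx, hy, add_zero]
    | smul c x _ hx => rw [map_smul, hx, smul_zero]
  | succ n ih =>
    intro z hz
    rw [pow_succ, Module.End.mul_apply]
    exact ih _ (rr_nilp_M hq i n z hz)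

lemma length_eq (l : List Bool) : l.length = (deg l).1 + (deg l).2 := by
  induction l with
  | nil => simp
  | cons i l ih => cases i <;> simp [ee, ih] <;> ring

lemma HH_nilp (hq : q ≠ 0) (i : Bool) (d : ℕ × ℕ) (z : Uq q) (hz : z ∈ HH q d) :
    ((rr q hq i) ^ (d.1 + d.2 + 1)) z = 0 := by
  apply rr_nilp
  refine Submodule.span_mono ?_ hz
  rintro _ ⟨l, rfl, rfl⟩
  exact ⟨l, length_eq l, rfl⟩

/-- Lemma R for homogeneous elements. -/
lemma lemmaR' (hq : q ≠ 0) (hroot : ∀ n : ℕ, 0 < n → q ^ n ≠ 1) (i : Bool) (d : ℕ × ℕ) (e : ℤ)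
    (hce : wt i d < e) (u : Uq q) (hu : u ∈ HH q d) (hE : E q i * u = q ^ e • (u * E q i)) :
    u = 0 :=
  lemmaR hq hroot i (wt i d) e hce u (kap_of_mem hq i d u hu) hE _ (HH_nilp hq i d u hu)

end Grading

end Pool.Agent.R28.CenterUq
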