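import Pool.Agent.R28.CenterUqE

namespace Pool.Agent.R28.CenterUq

open scoped TensorProduct

universe u

section Tensor

variable {K : Type u} [Field K] (q : K)

/-- Homogeneous tensors of total degree `e`. -/
def TT (e : ℕ × ℕ) : Submodule K (Uq q ⊗[K] Uq q) :=
  Submodule.span K {t | ∃ l l', deg l + deg l' = e ∧ M q l ⊗ₜ M q l' = t}

variable {q}

lemma rho_TT (hq : q ≠ 0) (i : Bool) (e : ℕ × ℕ) (t : Uq q ⊗[K] Uq q) (ht : t ∈ TT q e) :
    rho q i t ∈ TT q (ee i + e) := by
  induction ht using Submodule.span_induction with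
  | mem x hx =>
    obtain ⟨l, l', h, rfl⟩ := hx
    rw [rho_tmul, kap_M hq, ← TensorProduct.smul_tmul']
    refine Submodule.add_mem _ ?_ (Submodule.smul_mem _ _ ?_)
    · exact Submodule.subset_span ⟨i :: l, l', by rw [deg_cons, ← h, add_assoc], by rw [M_cons]⟩
    · exact Submodule.subset_span ⟨l, i :: l', by rw [deg_cons, ← h]; abel, by rw [M_cons]⟩
  | zero => rw [map_zero]; exact Submodule.zero_mem _
  | add x y _ _ hx hy => rw [map_add]; exact Submodule.add_mem _ hx hy
  | smul c x _ hx => rw [map_smul]; exact Submodule.smul_mem _ _ hx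

lemma Del_M (hq : q ≠ 0) (l : List Bool) : Del hq (M q l) ∈ TT q (deg l) := by
  induction l with
  | nil => exact Submodule.subset_span ⟨[], [], by simp, by simp⟩
  | cons i l ih => rw [M_cons, Del_mul_left, deg_cons]; exact rho_TT hq i _ _ ih

lemma Del_HH (hq : q ≠ 0) (e : ℕ × ℕ) (z : Uq q) (hz : z ∈ HH q e) : Del hq z ∈ TT q e := by
  induction hz using Submodule.span_induction with
  | mem x hx =>
    obtain ⟨l, h, rfl⟩ := hx
    rw [← h]; exact Del_M hq l
  | zero => rw [map_zero]; exact Submodule.zero_mem _
  | add x y _ _ hx hy => rw [map_add]; exact Submodule.add_mem _ hx hy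
  | smul c x _ hx => rw [map_smul]; exact Submodule.smul_mem _ _ hx

lemma contr_TT (d d' e : ℕ × ℕ) (he : d' + d = e) (f : Uq q →ₗ[K] K) (hf : f ∘ₗ pr q d = f)
    (t : Uq q ⊗[K] Uq q) (ht : t ∈ TT q e) : contr q f t ∈ HH q d' := by
  induction ht using Submodule.span_induction with
  | mem x hx =>
    obtain ⟨l, l', h, rfl⟩ := hx
    rw [contr_tmul]
    have hf' : f (M q l') = f (pr q d (M q l')) := by
      conv_lhs => rw [← hf]
      rfl
    rw [hf', pr_M]
    split_ifs with h1
    · refine Submodule.smul_mem _ _ ?_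
      have : deg l = d' := by
        rw [h1, ← he] at h
        exact add_right_cancel h
      rw [← this]
      exact M_mem_HH q l
    · rw [map_zero, zero_smul]; exact Submodule.zero_mem _
  | zero => rw [map_zero]; exact Submodule.zero_mem _
  | add x y _ _ hx hy => rw [map_add]; exact Submodule.add_mem _ hx hy
  | smul c x _ hx => rw [map_smul]; exact Submodule.smul_mem _ _ hx

lemma TT_sum (e : ℕ × ℕ) (t : Uq q ⊗[K] Uq q) (ht : t ∈ TT q e) :
    t = ∑ d ∈ Finset.Iic e, LinearMap.lTensor (Uq q) (pr q d) t := by
  induction ht using Submodule.span_induction with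
  | mem x hx =>
    obtain ⟨l, l', h, rfl⟩ := hx
    rw [Finset.sum_eq_single (deg l')]
    · rw [LinearMap.lTensor_tmul, pr_M, if_pos rfl]
    · intro d _ hd
      rw [LinearMap.lTensor_tmul, pr_M, if_neg (fun h => hd h.symm), TensorProduct.tmul_zero]
    · intro h'
      exfalso
      apply h'
      rw [Finset.mem_Iic, ← h]
      exact le_add_self
  | zero => simp
  | add x y _ _ hx hy =>
    simp only [map_add, Finset.sum_add_distrib]
    rw [← hx, ← hy]
  | smul c x _ hx =>
    simp only [map_smul, ← Finset.smul_sum]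
    rw [← hx]

lemma TT_top (e : ℕ × ℕ) (t : Uq q ⊗[K] Uq q) (ht : t ∈ TT q e) :
    LinearMap.lTensor (Uq q) (pr q e) t = 1 ⊗ₜ contrL q t := by
  induction ht using Submodule.span_induction with
  | mem x hx =>
    obtain ⟨l, l', h, rfl⟩ := hx
    rw [LinearMap.lTensor_tmul, pr_M, contrL_tmul]
    split_ifs with h1
    · have : deg l = 0 := by
        rw [h1] at h
        exact add_eq_right.1 h
      rw [deg_eq_zero l this, M_nil, map_one, one_smul]
    · cases l with
      | nil => exact absurd (by simpa using h) h1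
      | cons i l => simp
  | zero => simp
  | add x y _ _ hx hy => rw [map_add, hx, hy, map_add, TensorProduct.tmul_add]
  | smul c x _ hx => rw [map_smul, hx, map_smul, TensorProduct.tmul_smul]

lemma lTensor_pr_zero (t : Uq q ⊗[K] Uq q) :
    LinearMap.lTensor (Uq q) (pr q 0) t = contr q (eps q).toLinearMap t ⊗ₜ 1 := by
  induction t using TensorProduct.induction_on with
  | zero => simp
  | tmul x y =>
    rw [LinearMap.lTensor_tmul, pr_zero, contr_tmul, Algebra.algebraMap_eq_smul_one,
      TensorProduct.tmul_smul, TensorProduct.smul_tmul']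
    rfl
  | add a b ha hb => rw [map_add, ha, hb, map_add, TensorProduct.add_tmul]

/-- Functionals on the right factor separate tensors. -/
lemma eq_zero_of_contr (t : Uq q ⊗[K] Uq q) (h : ∀ f, contr q f t = 0) : t = 0 := by
  classical
  let b := Module.Basis.ofVectorSpace K (Uq q)
  have key : ∀ t : Uq q ⊗[K] Uq q, ∀ i,
      TensorProduct.equivFinsuppOfBasisRight b t i = contr q (b.coord i) t := by
    intro t i
    induction t using TensorProduct.induction_on with
    | zero => simp
    | tmul x y =>
      rw [TensorProduct.equivFinsuppOfBasisRight_apply_tmul_apply, contr_tmul]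
      simp
    | add a c ha hc => rw [map_add, Finsupp.add_apply, ha, hc, map_add]
  apply (TensorProduct.equivFinsuppOfBasisRight b).injective
  rw [map_zero]
  ext i
  rw [key, h]; rfl

lemma contr_lTensor (f : Uq q →ₗ[K] K) (g : Uq q →ₗ[K] Uq q) (t : Uq q ⊗[K] Uq q) :
    contr q f (LinearMap.lTensor (Uq q) g t) = contr q (f ∘ₗ g) t := by
  induction t using TensorProduct.induction_on with
  | zero => simp
  | tmul x y => simp
  | add a b ha hb => rw [map_add, map_add, ha, hb, map_add]

lemma wt_sub (i : Bool) (n a b : ℕ) (ha : a ≤ n) (hb : b ≤ n) :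
    wt i (n - a, n - b) = - wt i (a, b) := by
  cases i
  · simp only [wt, Bool.false_eq_true, if_false]; push_cast [ha, hb]; ring
  · simp only [wt, if_true]; push_cast [ha, hb]; ring

lemma central_comm (z : Uq q) (h : ∀ i, E q i * z = z * E q i) (w : Uq q) : w * z = z * w := by
  have : LinearMap.mulRight K z = LinearMap.mulLeft K z := by
    apply ext_M
    intro l
    simp only [LinearMap.mulRight_apply, LinearMap.mulLeft_apply]
    induction l with
    | nil => simp
    | cons i l ih => rw [M_cons, mul_assoc, ih, ← mul_assoc, h i, mul_assoc]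
  exact LinearMap.congr_fun this w

/-- Middle components of the coproduct of a homogeneous central element vanish. -/
lemma middle (hq : q ≠ 0) (hroot : ∀ n : ℕ, 0 < n → q ^ n ≠ 1) (n : ℕ)
    (IH : ∀ m, 1 ≤ m → m < n → ∀ z ∈ HH q (m, m), (∀ i, E q i * z = z * E q i) → z = 0)
    (z : Uq q) (hz : z ∈ HH q (n, n)) (hc : ∀ i, E q i * z = z * E q i) :
    ∀ k a b : ℕ, a + b = k → a ≤ n → b ≤ n → (a, b) ≠ (0, 0) → (a, b) ≠ (n, n) →
      ∀ f : Uq q →ₗ[K] K, f ∘ₗ pr q (a, b) = f → contr q f (Del hq z) = 0 := by
  intro k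
  induction k with
  | zero =>
    intro a b hab _ _ h0
    exfalso; apply h0
    have h1 : a = 0 := by omega
    have h2 : b = 0 := by omega
    rw [h1, h2]
  | succ k ih =>
    intro a b hab ha hb h0 hn f hf
    have hfw : ∀ w, f w = f (pr q (a, b) w) := by
      intro w; conv_lhs => rw [← hf]
      rfl
    set u := contr q f (Del hq z) with hu
    have humem : u ∈ HH q (n - a, n - b) := by
      refine contr_TT (a, b) (n - a, n - b) (n, n) ?_ f hf _ (Del_HH hq _ _ hz)
      ext
      · simp only [Prod.mk_add_mk]; omega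
      · simp only [Prod.mk_add_mk]; omega
    have hE : ∀ i, E q i * u = q ^ (wt i (a, b)) • (u * E q i) := by
      intro i
      have h1 : rho q i (Del hq z) = GG q i (Del hq z) := by
        rw [← Del_mul_left, ← Del_mul_right, hc i]
      have h2 := congrArg (contr q f) h1
      rw [contr_rho, contr_GG] at h2
      have h3 : f ∘ₗ (kap q i).toLinearMap = q ^ (wt i (a, b)) • f := by
        ext w
        simp only [LinearMap.comp_apply, AlgHom.toLinearMap_apply, LinearMap.smul_apply]
        rw [hfw, pr_kap hq, map_smul, ← hfw]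
      rw [h3, contr_smul, smul_mul_assoc] at h2
      have h4 : kap q i (contr q (f ∘ₗ LinearMap.mulLeft K (E q i)) (Del hq z)) =
          contr q (f ∘ₗ LinearMap.mulRight K (E q i)) (Del hq z) := by
        by_cases hex : ∃ d', (a, b) = ee i + d'
        · obtain ⟨⟨a', b'⟩, hd'⟩ := hex
          have hL : (f ∘ₗ LinearMap.mulLeft K (E q i)) ∘ₗ pr q (a', b') =
              f ∘ₗ LinearMap.mulLeft K (E q i) := by
            ext w
            simp only [LinearMap.comp_apply, LinearMap.mulLeft_apply]
            rw [hfw (E q i * w), hd', pr_mul_left]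
          have hR : (f ∘ₗ LinearMap.mulRight K (E q i)) ∘ₗ pr q (a', b') =
              f ∘ₗ LinearMap.mulRight K (E q i) := by
            ext w
            simp only [LinearMap.comp_apply, LinearMap.mulRight_apply]
            rw [hfw (w * E q i), hd', pr_mul_right]
          by_cases h00 : (a', b') = (0, 0)
          · have hL2 : f ∘ₗ LinearMap.mulLeft K (E q i) = f (E q i) • (eps q).toLinearMap := by
              rw [← hL, h00]
              ext w
              have : pr q (0, 0) w = algebraMap K (Uq q) (eps q w) := pr_zero q w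
              simp only [LinearMap.comp_apply, LinearMap.mulLeft_apply, LinearMap.smul_apply, this,
                AlgHom.toLinearMap_apply, Algebra.algebraMap_eq_smul_one, mul_smul_comm, mul_one,
                map_smul, smul_eq_mul]
              ring
            have hR2 : f ∘ₗ LinearMap.mulRight K (E q i) = f (E q i) • (eps q).toLinearMap := by
              rw [← hR, h00]
              ext w
              have : pr q (0, 0) w = algebraMap K (Uq q) (eps q w) := pr_zero q w
              simp only [LinearMap.comp_apply, LinearMap.mulRight_apply, LinearMap.smul_apply, this,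
                AlgHom.toLinearMap_apply, Algebra.algebraMap_eq_smul_one, smul_mul_assoc, one_mul,
                map_smul, smul_eq_mul]
              ring
            rw [hL2, hR2, contr_smul, contr_eps_Del, map_smul, kap_of_mem hq i (n, n) z hz]
            have : wt i (n, n) = 0 := by cases i <;> simp [wt]
            rw [this, zpow_zero, one_smul]
          · have hk : a' + b' = k := by
              have h5 := congrArg Prod.fst hd'
              have h6 := congrArg Prod.snd hd'
              cases i <;> simp only [ee, Prod.fst_add, Prod.snd_add, Bool.false_eq_true, if_false,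
                if_true] at h5 h6 <;> omega
            have ha' : a' ≤ a := by
              have h5 := congrArg Prod.fst hd'
              cases i <;> simp only [ee, Prod.fst_add, Prod.snd_add, Bool.false_eq_true, if_false,
                if_true] at h5 <;> omega
            have hb' : b' ≤ b := by
              have h5 := congrArg Prod.snd hd'
              cases i <;> simp only [ee, Prod.fst_add, Prod.snd_add, Bool.false_eq_true, if_false,
                if_true] at h5 <;> omega
            have hn' : (a', b') ≠ (n, n) := by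
              intro h
              rw [Prod.mk.injEq] at h
              omega
            rw [ih a' b' hk (by omega) (by omega) h00 hn' _ hL,
              ih a' b' hk (by omega) (by omega) h00 hn' _ hR, map_zero]
        · have hL : f ∘ₗ LinearMap.mulLeft K (E q i) = 0 := by
            ext w
            simp only [LinearMap.comp_apply, LinearMap.mulLeft_apply, LinearMap.zero_apply]
            rw [hfw, pr_mul_left_zero q i _ hex, map_zero]
          have hR : f ∘ₗ LinearMap.mulRight K (E q i) = 0 := by
            ext w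
            simp only [LinearMap.comp_apply, LinearMap.mulRight_apply, LinearMap.zero_apply]
            rw [hfw, pr_mul_right_zero q i _ hex, map_zero]
          rw [hL, hR, contr_zero, map_zero]
      rw [h4] at h2
      exact add_right_cancel h2
    rcases lt_trichotomy a b with h | h | h
    · -- use i = false
      refine lemmaR' hq hroot false (n - a, n - b) (wt false (a, b)) ?_ u humem (hE false)
      rw [wt_sub _ _ _ _ ha hb]
      simp only [wt, Bool.false_eq_true, if_false]
      omega
    · subst h
      have hcu : ∀ i, E q i * u = u * E q i := by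
        intro i
        have := hE i
        have h7 : wt i (a, a) = 0 := by cases i <;> simp [wt]
        rw [h7, zpow_zero, one_smul] at this
        exact this
      refine IH (n - a) ?_ ?_ u humem hcu
      · have : a ≠ n := fun h => hn (by rw [h])
        omega
      · omega
    · refine lemmaR' hq hroot true (n - a, n - b) (wt true (a, b)) ?_ u humem (hE true)
      rw [wt_sub _ _ _ _ ha hb]
      simp only [wt, if_true]
      omega

end Tensor

section Antipode

variable {K : Type u} [Field K] (q : K)

/-- The operators defining the braided antipode. -/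
def sig (i : Bool) : Module.End K (Uq q) :=
  - (LinearMap.mulRight K (E q i) ∘ₗ (kap q i).toLinearMap)

@[simp] lemma sig_apply (i : Bool) (v : Uq q) : sig q i v = -(kap q i v * E q i) := rfl

variable {q}

lemma serre_sig (hq : q ≠ 0) (i : Bool) : serre (qthree q) (sig q i) (sig q (!i)) = 0 := by
  ext v
  have h2 : q ^ 2 ≠ 0 := pow_ne_zero _ hq
  have h : serre (qthree q) (sig q i) (sig q (!i)) v =
      -(kap q i (kap q i v) * serre (qthree q) (E q i) (E q (!i))) := by
    simp only [serre, pow_succ, pow_zero, one_mul, LinearMap.sub_apply, LinearMap.add_apply,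
      LinearMap.smul_apply, Module.End.mul_apply, sig_apply, map_neg, map_mul, kap_E_same,
      kap_E_not, kap_not_E, kap_kap hq, kap_kap' hq, mul_smul_comm, smul_mul_assoc, map_smul,
      smul_smul, mul_assoc, mul_sub, mul_add, neg_mul, mul_neg, neg_neg, smul_neg]
    match_scalars <;> field_simp
  rw [h, serre_E]; simp

/-- The braided antipode. -/
def SS (hq : q ≠ 0) : Uq q →ₗ[K] Uq q :=
  (LinearMap.applyₗ (1 : Uq q)) ∘ₗ (lift q (sig q) (serre_sig hq)).toLinearMap

@[simp] lemma SS_one (hq : q ≠ 0) : SS hq (1 : Uq q) = 1 := by simp [SS]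

lemma SS_left (hq : q ≠ 0) (i : Bool) (w : Uq q) :
    SS hq (E q i * w) = -(kap q i (SS hq w) * E q i) := by
  simp [SS]

/-- The scalar in `S(M l) = cc(deg l) M(reverse l)`. -/
def cc (q : K) (d : ℕ × ℕ) : K :=
  (-1) ^ (d.1 + d.2) * q ^ ((((d.1 : ℤ) - d.2) ^ 2 - (d.1 + d.2) : ℤ))

lemma cc_step (hq : q ≠ 0) (i : Bool) (d : ℕ × ℕ) :
    cc q (ee i + d) = - (q ^ (wt i d) * cc q d) := by
  unfold cc
  have h1 : ((ee i + d).1 + (ee i + d).2) = (d.1 + d.2) + 1 := by
    cases i <;> simp [ee] <;> ring
  rw [h1, pow_succ]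
  have h2 : ((((ee i + d).1 : ℕ) : ℤ) - (((ee i + d).2 : ℕ) : ℤ)) ^ 2 -
      ((((ee i + d).1 : ℕ) : ℤ) + (((ee i + d).2 : ℕ) : ℤ)) =
      wt i d + (((d.1 : ℤ) - d.2) ^ 2 - (d.1 + d.2)) := by
    cases i
    · simp only [wt, ee, Prod.fst_add, Prod.snd_add, Bool.false_eq_true, if_false]
      push_cast; ring
    · simp only [wt, ee, Prod.fst_add, Prod.snd_add, if_true]
      push_cast; ring
  rw [h2, zpow_add₀ hq]
  ring

lemma SS_M (hq : q ≠ 0) (l : List Bool) : SS hq (M q l) = cc q (deg l) • M q l.reverse := by
  induction l with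
  | nil => simp [cc]
  | cons i l ih =>
    rw [M_cons, SS_left, ih, map_smul, kap_M hq, deg_reverse, deg_cons, cc_step hq,
      List.reverse_cons, ← M_snoc]
    simp only [smul_mul_assoc, smul_smul, neg_smul]
    rw [mul_comm]

lemma SS_kap (hq : q ≠ 0) (i : Bool) (w : Uq q) : SS hq (kap q i w) = kap q i (SS hq w) := by
  have : SS hq ∘ₗ (kap q i).toLinearMap = (kap q i).toLinearMap ∘ₗ SS hq := by
    apply ext_M
    intro l
    simp only [LinearMap.comp_apply, AlgHom.toLinearMap_apply]
    rw [kap_M hq, map_smul, SS_M, map_smul, kap_M hq, deg_reverse, smul_comm]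
  exact LinearMap.congr_fun this w

/-- `u ⊗ v ↦ S(u) v`. -/
def Ph (hq : q ≠ 0) : Uq q ⊗[K] Uq q →ₗ[K] Uq q :=
  LinearMap.mul' K (Uq q) ∘ₗ LinearMap.rTensor (Uq q) (SS hq)

@[simp] lemma Ph_tmul (hq : q ≠ 0) (x y : Uq q) : Ph hq (x ⊗ₜ y) = SS hq x * y := by
  simp [Ph]

lemma Ph_rho (hq : q ≠ 0) (i : Bool) (t : Uq q ⊗[K] Uq q) : Ph hq (rho q i t) = 0 := by
  induction t using TensorProduct.induction_on with
  | zero => simp
  | tmul x y => rw [rho_tmul, map_add, Ph_tmul, Ph_tmul, SS_left, SS_kap hq]; simp [mul_assoc]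
  | add a b ha hb => rw [map_add, map_add, ha, hb, add_zero]

lemma Ph_Del (hq : q ≠ 0) (d : ℕ × ℕ) (hd : d ≠ 0) (z : Uq q) (hz : z ∈ HH q d) :
    Ph hq (Del hq z) = 0 := by
  induction hz using Submodule.span_induction with
  | mem x hx =>
    obtain ⟨l, h, rfl⟩ := hx
    cases l with
    | nil => exact absurd h.symm hd
    | cons i l => rw [M_cons, Del_mul_left, Ph_rho]
  | zero => simp
  | add x y _ _ hx hy => rw [map_add, map_add, hx, hy, add_zero]
  | smul c x _ hx => rw [map_smul, map_smul, hx, smul_zero]

lemma SS_SS (hq : q ≠ 0) (d : ℕ × ℕ) (z : Uq q) (hz : z ∈ HH q d) :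
    SS hq (SS hq z) = (cc q d * cc q d) • z := by
  induction hz using Submodule.span_induction with
  | mem x hx =>
    obtain ⟨l, h, rfl⟩ := hx
    rw [SS_M, map_smul, SS_M, deg_reverse, List.reverse_reverse, smul_smul, h]
  | zero => simp
  | add x y _ _ hx hy => rw [map_add, map_add, hx, hy, smul_add]
  | smul c x _ hx => rw [map_smul, map_smul, hx, smul_comm]

/-- Homogeneous central elements of degree `(n, n)`, `n ≥ 1`, vanish. -/
lemma diag_zero (hq : q ≠ 0) (hroot : ∀ n : ℕ, 0 < n → q ^ n ≠ 1) (n : ℕ) :
    1 ≤ n → ∀ z ∈ HH q (n, n), (∀ i, E q i * z = z * E q i) → z = 0 := by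
  induction n using Nat.strong_induction_on with
  | _ n IH =>
    intro hn1 z hz hc
    have hmid := middle hq hroot n (fun m h1 h2 => IH m h2 h1) z hz hc
    have hT := Del_HH hq (n, n) z hz
    have hne : ((n, n) : ℕ × ℕ) ≠ 0 := by
      intro h
      have := congrArg Prod.fst h
      simp at this
      omega
    have hcomp : ∀ d ∈ Finset.Iic ((n, n) : ℕ × ℕ), d ≠ 0 → d ≠ (n, n) →
        LinearMap.lTensor (Uq q) (pr q d) (Del hq z) = 0 := by
      rintro ⟨a, b⟩ hd h0 h1
      rw [Finset.mem_Iic, Prod.mk_le_mk] at hd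
      apply eq_zero_of_contr
      intro f
      rw [contr_lTensor]
      refine hmid (a + b) a b rfl hd.1 hd.2 h0 h1 _ ?_
      ext w
      simp only [LinearMap.comp_apply]
      rw [pr_of_mem q (a, b) _ (pr_mem q (a, b) w)]
    have ht : Del hq z = z ⊗ₜ 1 + 1 ⊗ₜ z := by
      conv_lhs => rw [TT_sum (n, n) _ hT]
      have hsub : ({0, (n, n)} : Finset (ℕ × ℕ)) ⊆ Finset.Iic ((n, n) : ℕ × ℕ) := by
        intro d hd
        rw [Finset.mem_insert, Finset.mem_singleton] at hd
        rw [Finset.mem_Iic]
        rcases hd with rfl | rfl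
        · exact ⟨Nat.zero_le _, Nat.zero_le _⟩
        · exact le_rfl
      rw [← Finset.sum_subset hsub]
      · rw [Finset.sum_pair (Ne.symm hne), lTensor_pr_zero, contr_eps_Del, TT_top _ _ hT,
          contrL_Del]
      · intro d hd hd'
        rw [Finset.mem_insert, Finset.mem_singleton, not_or] at hd'
        exact hcomp d hd hd'.1 hd'.2
    have h1 := Ph_Del hq (n, n) hne z hz
    rw [ht, map_add, Ph_tmul, Ph_tmul, SS_one, mul_one, one_mul] at h1
    have h2 : SS hq z = -z := eq_neg_of_add_eq_zero_left h1
    have h3 := SS_SS hq (n, n) z hz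
    rw [h2, map_neg, h2, neg_neg] at h3
    have h4 : cc q (n, n) * cc q (n, n) = q ^ (-(4 * (n : ℤ))) := by
      unfold cc
      have e1 : (((-1 : K)) ^ (n + n)) = 1 := by rw [← two_mul, pow_mul]; simp
      have e2 : ((((n, n) : ℕ × ℕ).1 : ℤ) - (((n, n) : ℕ × ℕ).2 : ℤ)) ^ 2 -
          ((((n, n) : ℕ × ℕ).1 : ℤ) + (((n, n) : ℕ × ℕ).2 : ℤ)) = -(2 * (n : ℤ)) := by
        simp only; ring
      rw [e2]
      simp only [e1, one_mul]
      rw [← zpow_add₀ hq]
      congr 1; ring
    rw [h4] at h3
    have h5 : (1 - q ^ (-(4 * (n : ℤ)))) • z = 0 := by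
      rw [sub_smul, one_smul, sub_eq_zero]; exact h3
    rcases smul_eq_zero.1 h5 with h6 | h6
    · exfalso
      exact zpow_ne_one hroot (-(4 * (n : ℤ))) (by omega) (sub_eq_zero.1 h6).symm
    · exact h6

/-- Every element commuting with both generators is a scalar. -/
lemma central_scalar (hq : q ≠ 0) (hroot : ∀ n : ℕ, 0 < n → q ^ n ≠ 1) (z : Uq q)
    (hc : ∀ i, E q i * z = z * E q i) : z = algebraMap K (Uq q) (eps q z) := by
  rw [← pr_zero]
  apply eq_of_pr_eq_zero
  rintro ⟨a, b⟩ hd
  have hcd : ∀ i, E q i * pr q (a, b) z = pr q (a, b) z * E q i := by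
    intro i
    rw [← pr_mul_left, ← pr_mul_right, hc i]
  rcases lt_trichotomy a b with h | h | h
  · refine lemmaR' hq hroot true (a, b) 0 ?_ _ (pr_mem q _ z) ?_
    · simp only [wt, if_true]; omega
    · rw [zpow_zero, one_smul]; exact hcd true
  · subst h
    refine diag_zero hq hroot a ?_ _ (pr_mem q _ z) hcd
    rcases Nat.eq_zero_or_pos a with h | h
    · exfalso; apply hd; rw [h]; rfl
    · exact h
  · refine lemmaR' hq hroot false (a, b) 0 ?_ _ (pr_mem q _ z) ?_
    · simp only [wt, Bool.false_eq_true, if_false]; omega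
    · rw [zpow_zero, one_smul]; exact hcd false

end Antipode

end Pool.Agent.R28.CenterUq
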